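import Pool.Agent.Helper7.LS.Defs

/-!
# Packings in separated rows: the sets of the heights of long chords

`u` is the direction of the rows, `e` a transversal vector (`det2 u e = 1`), `ch u e X Y` the point
with the coordinates `X`, `Y`. `S K u e t l` is the set of the heights `Y` at which the set
`{y ∈ proj K | t ≤ len K y}` has a chord of `u`-length `l`; `om` is its length.
-/

set_option autoImplicit false
namespace Pool.Agent.Helper20.R
open MeasureTheory
open Pool.Agent.Helper59.Pack Pool.Agent.Helper69.MD Pool.Agent.Helper7.LS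

/-- The point with the coordinates `X`, `Y` in the basis `u`, `e`. -/
def ch (u e : P2) (X Y : ℝ) : P2 := X • u + Y • e

/-- The heights at which the superlevel set `lev K t` has a chord of `u`-length `l`. -/
def S (K : Set E3) (u e : P2) (t l : ℝ) : Set ℝ :=
  {Y | ∃ X, ch u e X Y ∈ lev K t ∧ ch u e (X + l) Y ∈ lev K t}

/-- The length of `S K u e t l`. -/
noncomputable def om (K : Set E3) (u e : P2) (t l : ℝ) : ℝ := (volume (S K u e t l)).toReal

/-- The domain of `om`. -/
def Dm (K : Set E3) (u e : P2) : Set (ℝ × ℝ) :=
  {p | 0 ≤ p.1 ∧ 0 ≤ p.2 ∧ (S K u e p.1 p.2).Nonempty}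

end Pool.Agent.Helper20.R
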