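import Pool.Agent.Helper20.R.Main
import Pool.Agent.Helper12.R0.Vol
import Pool.Agent.Helper77.R2.Main

/-!
# Theorem R: packings in separated rows, final form
-/

set_option autoImplicit false
namespace Pool.Agent.Helper20.R
open MeasureTheory
open Pool.Agent.Helper59.Pack Pool.Agent.Helper69.MD Pool.Agent.Helper7.LS
open scoped ENNReal

theorem om_concave {K : Set E3} (hK : IsConvexBody K) {u e : P2} (hue : det2 u e = 1) :
    ConcaveOn ℝ (Dm K u e) (fun p => om K u e p.1 p.2) := by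
  have mem : ∀ {p q : ℝ × ℝ} {Y Y' : ℝ}, Y ∈ S K u e p.1 p.2 → Y' ∈ S K u e q.1 q.2 →
      ∀ {a b : ℝ}, 0 ≤ a → 0 ≤ b → a + b = 1 →
      a * Y + b * Y' ∈ S K u e (a • p + b • q).1 (a • p + b • q).2 := by
    intro p q Y Y' h1 h2 a b ha hb hab
    exact S_mx hK h1 h2 ha hb hab
  refine ⟨?_, ?_⟩
  · intro p hp q hq a b ha hb hab
    obtain ⟨Y, hY⟩ := hp.2.2
    obtain ⟨Y', hY'⟩ := hq.2.2
    refine ⟨?_, ?_, _, mem hY hY' ha hb hab⟩
    · exact add_nonneg (mul_nonneg ha hp.1) (mul_nonneg hb hq.1)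
    · exact add_nonneg (mul_nonneg ha hp.2.1) (mul_nonneg hb hq.2.1)
  · intro p hp q hq a b ha hb hab
    obtain ⟨α, β, h1, e1⟩ := icc_of (S_cpt hK hue p.1 p.2) (S_cvx hK p.1 p.2) hp.2.2
    obtain ⟨α', β', h2, e2⟩ := icc_of (S_cpt hK hue q.1 q.2) (S_cvx hK q.1 q.2) hq.2.2
    have m1 := mem (p := p) (q := q) (Y := α) (Y' := α') (by rw [e1]; exact ⟨le_rfl, h1⟩)
      (by rw [e2]; exact ⟨le_rfl, h2⟩) ha hb hab
    have m2 := mem (p := p) (q := q) (Y := β) (Y' := β') (by rw [e1]; exact ⟨h1, le_rfl⟩)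
      (by rw [e2]; exact ⟨h2, le_rfl⟩) ha hb hab
    have h3 := (S_cvx hK (a • p + b • q).1 (a • p + b • q).2).ordConnected.out m1 m2
    have h4 := ENNReal.toReal_mono (S_cpt hK hue (a • p + b • q).1
      (a • p + b • q).2).measure_lt_top.ne (measure_mono (μ := volume) h3)
    have h5 : 0 ≤ a * (β - α) + b * (β' - α') :=
      add_nonneg (mul_nonneg ha (by linarith)) (mul_nonneg hb (by linarith))
    rw [Real.volume_Icc, ENNReal.toReal_ofReal (by linarith)] at h4
    have e3 : om K u e p.1 p.2 = β - α := by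
      rw [om, e1, Real.volume_Icc, ENNReal.toReal_ofReal (by linarith)]
    have e4 : om K u e q.1 q.2 = β' - α' := by
      rw [om, e2, Real.volume_Icc, ENNReal.toReal_ofReal (by linarith)]
    simp only [smul_eq_mul]
    rw [e3, e4]
    refine le_trans (le_of_eq ?_) h4
    ring

/-- **Theorem R.** If the volume of a convex body is at least a quarter of the volume of a
circumscribed parallelepiped with vertical edges, the body has double lattice packings of density
arbitrarily near `1/2`. -/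
theorem rows {K : Set E3} (hK : IsConvexBody K) {u v : P2} {wu wv M : ℝ}
    (huv : 0 < det2 u v) (hu : ∀ x ∈ proj K, ∀ y ∈ proj K, det2 u (x - y) ≤ wu)
    (hv : ∀ x ∈ proj K, ∀ y ∈ proj K, det2 v (x - y) ≤ wv) (hM : ∀ y, len K y ≤ M)
    (hV : M * (wu * wv) ≤ 4 * (volume K).toReal * det2 u v) :
    ENNReal.ofReal (1 / 2) ≤ deltaLstar K := by
  obtain ⟨u', e, M₀, P, x₁, y₁, hue, h1, h2, h3, h4, h5, h6, h7, h8, h9, h10, h11⟩ :=
    rows_frame hK huv hu hv hM hV
  refine rows_norm hK hue (om_concave hK hue) ?_ ?_ h1 h2 h3 h4 h5 h6 h7 h8 h9 h10 h11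
  · intro f hf hf0 hle
    exact Pool.Agent.Helper12.R0.vol_ge_om hK hue hf hf0 hle
  · intro g D hc h0 M P h hM hP a1 a2 m00 m10 m01 mh mm hA hanti i1 i2 i4
    exact Pool.Agent.Helper77.R2.minorant hc h0 hM hP a1 a2 m00 m10 m01 mh mm hA hanti i1 i2 i4

end Pool.Agent.Helper20.R
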