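import Pool.Agent.Helper20.R.Strat

/-!
# Theorem R: packings in separated rows
-/

set_option autoImplicit false
namespace Pool.Agent.Helper20.R
open MeasureTheory
open Pool.Agent.Helper59.Pack Pool.Agent.Helper69.MD Pool.Agent.Helper7.LS
open scoped ENNReal

/-- The longest chord in the direction `u`. -/
theorem exists_chord {Q : Set P2} (hc : IsCompact Q) (hint : (interior Q).Nonempty) {u v : P2}
    (huv : 0 < det2 u v) : ∃ l₀ : ℝ, 0 < l₀ ∧ (∃ x ∈ Q, x + l₀ • u ∈ Q) ∧
      ∀ x ∈ Q, ∀ l : ℝ, x + l • u ∈ Q → l ≤ l₀ := by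
  obtain ⟨z, hz⟩ := hint
  have hzQ := interior_subset hz
  set F : Set (P2 × P2) := (Q ×ˢ Q) ∩ {p | det2 u (p.2 - p.1) = 0} with hF
  have hcl : IsClosed {p : P2 × P2 | det2 u (p.2 - p.1) = 0} := by
    refine isClosed_eq ?_ continuous_const
    unfold det2
    simp only [Pi.sub_apply]
    fun_prop
  have hFc : IsCompact F := (hc.prod hc).inter_right hcl
  have hcont : Continuous fun p : P2 × P2 => det2 (p.2 - p.1) v := by
    unfold det2
    simp only [Pi.sub_apply]
    fun_prop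
  obtain ⟨⟨x₀, y₀⟩, hm, hmax⟩ := hFc.exists_isMaxOn ⟨(z, z), ⟨hzQ, hzQ⟩, by
    change det2 u (z - z) = 0
    simp [det2]⟩ hcont.continuousOn
  have hx₀ : x₀ ∈ Q := hm.1.1
  have hy₀ : y₀ ∈ Q := hm.1.2
  have h0 : det2 u (y₀ - x₀) = 0 := hm.2
  set l₀ := det2 (y₀ - x₀) v / det2 u v with hl₀
  have hy : x₀ + l₀ • u = y₀ := by
    have e1 : l₀ * det2 u v = det2 (y₀ - x₀) v := div_mul_cancel₀ _ huv.ne'
    have key : ∀ i, det2 u v * (y₀ i - x₀ i) = det2 (y₀ - x₀) v * u i + det2 u (y₀ - x₀) * v i := by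
      intro i
      fin_cases i <;> simp only [det2, Pi.sub_apply] <;> simp <;> ring
    have key2 : ∀ i, det2 u v * (y₀ i - x₀ i) = det2 u v * (l₀ * u i) := by
      intro i
      rw [key i, h0, ← e1]; ring
    apply P2_ext
    · have := mul_left_cancel₀ huv.ne' (key2 0)
      simp only [Pi.add_apply, Pi.smul_apply, smul_eq_mul]; linarith
    · have := mul_left_cancel₀ huv.ne' (key2 1)
      simp only [Pi.add_apply, Pi.smul_apply, smul_eq_mul]; linarith
  have hle : ∀ x ∈ Q, ∀ l : ℝ, x + l • u ∈ Q → l ≤ l₀ := by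
    intro x hx l hxl
    have h1 := hmax (show (x, x + l • u) ∈ F from ⟨⟨hx, hxl⟩, by
      change det2 u (x + l • u - x) = 0
      simp only [det2, Pi.add_apply, Pi.sub_apply, Pi.smul_apply, smul_eq_mul]; ring⟩)
    have h2 : det2 (x + l • u - x) v ≤ det2 (y₀ - x₀) v := h1
    have h3 : det2 (x + l • u - x) v = l * det2 u v := by
      simp only [det2, Pi.add_apply, Pi.sub_apply, Pi.smul_apply, smul_eq_mul]; ring
    rw [h3] at h2
    rw [hl₀, le_div_iff₀ huv]
    exact h2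
  refine ⟨l₀, ?_, ⟨x₀, hx₀, by rwa [hy]⟩, hle⟩
  -- positivity
  have hopen : IsOpen ((fun t : ℝ => z + t • u) ⁻¹' interior Q) :=
    isOpen_interior.preimage (by fun_prop)
  obtain ⟨ε, hε, hball⟩ := Metric.isOpen_iff.1 hopen 0 (by
    change z + (0 : ℝ) • u ∈ interior Q
    simpa using hz)
  have h1 : z + (ε / 2) • u ∈ Q := interior_subset (hball (by
    rw [Metric.mem_ball, Real.dist_eq, sub_zero, abs_of_pos (by positivity)]
    linarith))
  have h2 := hle z hzQ _ h1
  linarith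

/-- The extreme heights. -/
theorem exists_height {Q : Set P2} (hc : IsCompact Q) (hint : (interior Q).Nonempty) {u e : P2}
    (hue : det2 u e = 1) : ∃ x₁ ∈ Q, ∃ y₁ ∈ Q, 0 < det2 u (x₁ - y₁) ∧
      ∀ x ∈ Q, ∀ y ∈ Q, det2 u (x - y) ≤ det2 u (x₁ - y₁) := by
  obtain ⟨z, hz⟩ := hint
  have hzQ := interior_subset hz
  have hcont : Continuous fun p : P2 × P2 => det2 u (p.1 - p.2) := by
    unfold det2
    simp only [Pi.sub_apply]
    fun_prop
  obtain ⟨⟨x₁, y₁⟩, hm, hmax⟩ := (hc.prod hc).exists_isMaxOn ⟨(z, z), hzQ, hzQ⟩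
    hcont.continuousOn
  refine ⟨x₁, hm.1, y₁, hm.2, ?_, fun x hx y hy => hmax (show (x, y) ∈ Q ×ˢ Q from ⟨hx, hy⟩)⟩
  have hopen : IsOpen ((fun t : ℝ => z + t • e) ⁻¹' interior Q) :=
    isOpen_interior.preimage (by fun_prop)
  obtain ⟨ε, hε, hball⟩ := Metric.isOpen_iff.1 hopen 0 (by
    change z + (0 : ℝ) • e ∈ interior Q
    simpa using hz)
  have h1 : z + (ε / 2) • e ∈ Q := interior_subset (hball (by
    rw [Metric.mem_ball, Real.dist_eq, sub_zero, abs_of_pos (by positivity)]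
    linarith))
  have h2 : det2 u (z + (ε / 2) • e - z) ≤ det2 u (x₁ - y₁) :=
    hmax (show (z + (ε / 2) • e, z) ∈ Q ×ˢ Q from ⟨h1, hzQ⟩)
  have h3 : det2 u (z + (ε / 2) • e - z) = ε / 2 * det2 u e := by
    simp only [det2, Pi.add_apply, Pi.sub_apply, Pi.smul_apply, smul_eq_mul]; ring
  rw [h3, hue] at h2
  linarith

/-- Theorem R for normalised data. -/
theorem rows_norm {K : Set E3} (hK : IsConvexBody K) {u e : P2} (hue : det2 u e = 1)
    (hcon : ConcaveOn ℝ (Dm K u e) (fun p => om K u e p.1 p.2))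
    (hvol : ∀ {f : ℝ × ℝ → ℝ≥0∞}, Measurable f → (∀ t l, f (t, l) ≠ 0 → 0 < t ∧ 0 < l) →
      (∀ t l, f (t, l) ≤ ENNReal.ofReal (om K u e t l)) → ∫⁻ p, f p ≤ volume K)
    (hR2 : ∀ {g : ℝ → ℝ → ℝ} {D : Set (ℝ × ℝ)}, ConcaveOn ℝ D (fun p => g p.1 p.2) →
      (∀ t l, 0 ≤ g t l) → ∀ {M P h : ℝ}, 0 < M → 0 < P → 1 / 2 ≤ h → h ≤ 1 →
      (0, 0) ∈ D → (M, 0) ∈ D → (0, 1) ∈ D → (h * M, 1 / 2) ∈ D → (M / 2, 1 / 2) ∈ D →
      P ≤ g 0 0 → g (M / 4) (1 / 2) ≤ g 0 (1 / 2) →
      2 * h * P < g (M / 4) (1 / 2) + g (M / 2) (1 / 2) →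
      2 * h * P < g (M / 2) 0 + g (M / 2) (1 / 2) →
      P < g (h * M) 0 + g (h * M) (1 / 2) →
      ∃ f : ℝ × ℝ → ℝ≥0∞, Measurable f ∧
        (∀ t l, f (t, l) ≠ 0 → 0 < t ∧ 0 < l ∧ (t, l) ∈ D) ∧
        (∀ t l, f (t, l) ≤ ENNReal.ofReal (g t l)) ∧
        ENNReal.ofReal (M * P * (1 + 2 * h + 4 * h ^ 2) / 12) < ∫⁻ p, f p)
    {M P : ℝ} (hch : ∀ x ∈ proj K, ∀ l : ℝ, 1 < l → x + l • u ∉ proj K)
    (hch1 : ∃ x ∈ proj K, x + (1 : ℝ) • u ∈ proj K) (hM : 0 < M) (hlen : ∀ y, len K y ≤ M)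
    (hlen1 : ∃ y, len K y = M) {x₁ y₁ : P2} (hx₁ : x₁ ∈ proj K) (hy₁ : y₁ ∈ proj K)
    (hPe : det2 u (x₁ - y₁) = P) (hP0 : 0 < P)
    (hP : ∀ x ∈ proj K, ∀ y ∈ proj K, det2 u (x - y) ≤ P)
    (hV : M * P ≤ 4 * (volume K).toReal) : ENNReal.ofReal (1 / 2) ≤ deltaLstar K := by
  set V := (volume K).toReal with hVd
  have hVfin : volume K ≠ ⊤ := hK.isCompact.measure_lt_top.ne
  have hMP : 0 < M * P := mul_pos hM hP0
  have hV0 : 0 < V := by linarith
  set r := 2 * V / (M * P) with hr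
  have hrV : r * (M * P) = 2 * V := div_mul_cancel₀ _ hMP.ne'
  have hr1 : 1 / 2 ≤ r := by
    rw [hr, le_div_iff₀ hMP]; linarith
  have hr0 : 0 < r := by linarith
  -- the value of a packing
  have pack : ∀ {s h' c β : ℝ}, 1 < c → 0 < s → M ≤ 2 * s → P < 2 * h' → 0 < β →
      β * (2 * s * h' * c) ≤ V → deltaLstar K < ENNReal.ofReal β →
      2 * h' ≤ om K u e s (1 / 2) + om K u e (s / 2) (1 / 2) ∧
      2 * h' ≤ om K u e s (1 / 2) + om K u e s 0 := by
    intro s h' c β hc hs hMs hPh hβ hβV hlt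
    have hh : 0 < h' := by linarith
    have main : ¬ (om K u e s (1 / 2) + om K u e (s / 2) (1 / 2) < 2 * h' ∨
        om K u e s (1 / 2) + om K u e s 0 < 2 * h') := by
      intro hom
      have h1 := strategy hK hue hch hc hs (fun y => (hlen y).trans hMs) hh hP hPh hom
      have h2 : ENNReal.ofReal β ≤ volume K / ENNReal.ofReal (2 * s * h' * c) := by
        have h3 : 0 < 2 * s * h' * c := by positivity
        rw [ENNReal.le_div_iff_mul_le (Or.inl (ENNReal.ofReal_pos.2 h3).ne')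
          (Or.inl ENNReal.ofReal_ne_top), ← ENNReal.ofReal_mul hβ.le,
          ← ENNReal.ofReal_toReal hVfin]
        exact ENNReal.ofReal_le_ofReal hβV
      exact absurd (h2.trans h1) (not_le.2 hlt)
    push Not at main
    exact main
  by_contra hcontra
  push Not at hcontra
  -- a number between
  obtain ⟨β, hβ1, hβ2⟩ : ∃ β : ℝ, deltaLstar K < ENNReal.ofReal β ∧ β < 1 / 2 := by
    obtain ⟨b, hb1, hb2⟩ := exists_between hcontra
    have hbt : b ≠ ⊤ := (hb2.trans_le le_top).ne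
    refine ⟨b.toReal, by rwa [ENNReal.ofReal_toReal hbt], ?_⟩
    have := (ENNReal.toReal_lt_toReal hbt ENNReal.ofReal_ne_top).2 hb2
    rwa [ENNReal.toReal_ofReal (by norm_num)] at this
  have hβ0 : 0 < β := by
    by_contra h
    push Not at h
    rw [ENNReal.ofReal_of_nonpos h] at hβ1
    exact absurd hβ1 (by simp)
  set k := Real.sqrt (1 / (2 * β)) with hk
  have hk2 : k * k = 1 / (2 * β) := Real.mul_self_sqrt (by positivity)
  have hk1 : 1 < k := by
    rw [hk, Real.lt_sqrt (by norm_num), one_pow, lt_div_iff₀ (by positivity)]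
    linarith
  have hk0 : 0 < k := by linarith
  have hβk : β * (k * k) = 1 / 2 := by
    rw [hk2]; field_simp
  -- bounds of `om`
  have sub : ∀ t l, S K u e t l ⊆ Set.Icc (det2 u y₁) (det2 u x₁) := by
    rintro t l Y ⟨X, h1, -⟩
    have hx : ch u e X Y ∈ proj K := h1.1
    have e1 := det2_ch hue X Y
    have e2 := hP _ hx _ hy₁
    have e3 := hP _ hx₁ _ hx
    have e4 : ∀ x y : P2, det2 u (x - y) = det2 u x - det2 u y := by
      intro x y; simp only [det2, Pi.sub_apply]; ring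
    rw [e4, e1] at e2 e3
    rw [e4] at hPe
    exact ⟨by linarith, by linarith⟩
  have ple : ∀ t l, om K u e t l ≤ P := by
    intro t l
    have h1 : volume (S K u e t l) ≤ ENNReal.ofReal P := by
      refine (measure_mono (sub t l)).trans (le_of_eq ?_)
      rw [Real.volume_Icc, ← hPe]
      congr 1
      simp only [det2, Pi.sub_apply]; ring
    have h2 := ENNReal.toReal_mono ENNReal.ofReal_ne_top h1
    rwa [ENNReal.toReal_ofReal hP0.le] at h2
  have nonneg : ∀ t l, 0 ≤ om K u e t l := fun t l => ENNReal.toReal_nonneg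
  have nonempty : ∀ t l, 0 < om K u e t l → (S K u e t l).Nonempty := by
    intro t l h
    by_contra hne
    rw [Set.not_nonempty_iff_eq_empty] at hne
    rw [om, hne] at h
    simp at h
  have hz : lev K 0 = proj K := lev_zr K
  have hS00 : ∀ x ∈ proj K, det2 u x ∈ S K u e 0 0 := by
    intro x hx
    refine ⟨det2 x e, ?_, ?_⟩
    · rw [ch_det2 hue, hz]; exact hx
    · rw [add_zero, ch_det2 hue, hz]; exact hx
  have pge : P ≤ om K u e 0 0 := by
    have h1 : Set.Icc (det2 u y₁) (det2 u x₁) ⊆ S K u e 0 0 :=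
      (S_cvx hK 0 0).ordConnected.out (hS00 _ hy₁) (hS00 _ hx₁)
    have h2 := ENNReal.toReal_mono (S_cpt hK hue 0 0).measure_lt_top.ne
      (measure_mono (μ := volume) h1)
    rw [Real.volume_Icc, ENNReal.toReal_ofReal (by
      have : det2 u x₁ - det2 u y₁ = P := by
        rw [← hPe]; simp only [det2, Pi.sub_apply]; ring
      linarith)] at h2
    have h3 : det2 u x₁ - det2 u y₁ = P := by
      rw [← hPe]; simp only [det2, Pi.sub_apply]; ring
    rw [h3] at h2
    exact h2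
  rcases le_or_gt r 1 with hr2 | hr2
  · -- the main case
    obtain ⟨a1, a2⟩ := pack (s := M / 2) (h' := k * (r * P)) (c := k) hk1 (by linarith)
      (by linarith) (by nlinarith [mul_pos hr0 hP0]) hβ0 (by
        have : β * (2 * (M / 2) * (k * (r * P)) * k) = β * (k * k) * (r * (M * P)) := by ring
        rw [this, hβk, hrV]
        linarith) hβ1
    obtain ⟨-, b2⟩ := pack (s := r * M) (h' := k * P / 2) (c := k) hk1 (by positivity)
      (by nlinarith) (by nlinarith) hβ0 (by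
        have : β * (2 * (r * M) * (k * P / 2) * k) = β * (k * k) * (r * (M * P)) := by ring
        rw [this, hβk, hrV]
        linarith) hβ1
    obtain ⟨b1, -⟩ := pack (s := r * M) (h' := k * P / 2) (c := k) hk1 (by positivity)
      (by nlinarith) (by nlinarith) hβ0 (by
        have : β * (2 * (r * M) * (k * P / 2) * k) = β * (k * k) * (r * (M * P)) := by ring
        rw [this, hβk, hrV]
        linarith) hβ1
    have hrP : 0 < r * P := mul_pos hr0 hP0
    have c1 : 2 * r * P < 2 * (k * (r * P)) := by nlinarith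
    have c2 : P < 2 * (k * P / 2) := by nlinarith
    rw [show M / 2 / 2 = M / 4 by ring] at a1
    obtain ⟨f, hf1, hf2, hf3, hf4⟩ := hR2 hcon (fun t l => nonneg t l) hM hP0 hr1 hr2
      (D := Dm K u e)
      ⟨le_rfl, le_rfl, ⟨_, hS00 _ hx₁⟩⟩
      ⟨hM.le, le_rfl, by
        obtain ⟨y, hy⟩ := hlen1
        have hyp : y ∈ proj K := by
          by_contra h
          rw [len_off h] at hy
          linarith
        refine ⟨det2 u y, det2 y e, ?_, ?_⟩
        · rw [ch_det2 hue]; exact ⟨hyp, hy.ge⟩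
        · change ch u e (det2 y e + 0) (det2 u y) ∈ lev K M
          rw [add_zero, ch_det2 hue]; exact ⟨hyp, hy.ge⟩⟩
      ⟨le_rfl, zero_le_one, by
        obtain ⟨x, hx, hx'⟩ := hch1
        refine ⟨det2 u x, det2 x e, ?_, ?_⟩
        · change _ ∈ lev K 0
          rw [ch_det2 hue, hz]; exact hx
        · change ch u e (det2 x e + 1) (det2 u x) ∈ lev K 0
          rw [ch_add, ch_det2 hue, hz]; exact hx'⟩
      ⟨by positivity, by norm_num, nonempty _ _ (by
        have := ple (r * M / 2) (1 / 2)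
        linarith)⟩
      ⟨by positivity, by norm_num, nonempty _ _ (by
        have := ple (M / 4) (1 / 2)
        nlinarith)⟩
      pge
      (by
        have h1 := S_ant (K := K) hK (u := u) (e := e) (t := 0) (t' := M / 4) (l := 1 / 2)
          (l' := 1 / 2) (by positivity) (by norm_num) le_rfl
        exact ENNReal.toReal_mono (S_cpt hK hue 0 (1 / 2)).measure_lt_top.ne
          (measure_mono (μ := volume) h1))
      (by linarith) (by linarith) (by linarith)
    have h5 := hvol hf1 (fun t l h => ⟨(hf2 t l h).1, (hf2 t l h).2.1⟩) hf3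
    have h6 := hf4.trans_le h5
    rw [← ENNReal.ofReal_toReal hVfin, ENNReal.ofReal_lt_ofReal_iff hV0] at h6
    have h7 : V = r * (M * P) / 2 := by linarith
    rw [h7] at h6
    have h8 : M * P * (1 + 2 * r + 4 * r ^ 2) / 12 - r * (M * P) / 2 =
        M * P * (2 * r - 1) ^ 2 / 12 := by ring
    have h9 : 0 ≤ M * P * (2 * r - 1) ^ 2 / 12 := by positivity
    linarith
  · -- the box lattice
    set q := min k (Real.sqrt (Real.sqrt r)) with hq
    have hq1 : 1 < q := by
      refine lt_min hk1 ?_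
      rw [Real.lt_sqrt (by norm_num), one_pow, Real.lt_sqrt (by norm_num), one_pow]
      exact hr2
    have hq0 : 0 < q := by linarith
    have hqr : q * q * q * q ≤ r := by
      have h1 : q ≤ Real.sqrt (Real.sqrt r) := min_le_right _ _
      have h2 : q * q ≤ Real.sqrt r := by
        calc q * q ≤ Real.sqrt (Real.sqrt r) * Real.sqrt (Real.sqrt r) := by gcongr
          _ = Real.sqrt r := Real.mul_self_sqrt (Real.sqrt_nonneg _)
      calc q * q * q * q = (q * q) * (q * q) := by ring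
        _ ≤ Real.sqrt r * Real.sqrt r := by gcongr
        _ = r := Real.mul_self_sqrt hr0.le
    obtain ⟨a1, -⟩ := pack (s := q * M) (h' := q * P / 2) (c := q) hq1 (by positivity)
      (by nlinarith) (by nlinarith) hβ0 (by
        have h1 : β * (2 * (q * M) * (q * P / 2) * q) = β * (q * q * q) * (M * P) := by ring
        rw [h1]
        have h2 : q * q * q ≤ r := by
          refine le_trans ?_ hqr
          have : 0 < q * q * q := by positivity
          nlinarith
        have h3 : β * (q * q * q) * (M * P) ≤ 1 / 2 * r * (M * P) := by gcongr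
        have h4 : 1 / 2 * r * (M * P) = V := by
          rw [mul_assoc, hrV]; ring
        linarith) hβ1
    have e0 : om K u e (q * M) (1 / 2) = 0 := by
      have : S K u e (q * M) (1 / 2) = ∅ := by
        rw [Set.eq_empty_iff_forall_notMem]
        rintro Y ⟨X, h1, -⟩
        have h2 := h1.2
        have h3 := hlen (ch u e X Y)
        nlinarith
      rw [om, this]; simp
    have e1 := ple (q * M / 2) (1 / 2)
    rw [e0] at a1
    nlinarith

/-- The normalisation in theorem R: the longest chord and the extreme heights. -/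
theorem rows_frame {K : Set E3} (hK : IsConvexBody K) {u v : P2} {wu wv M : ℝ}
    (huv : 0 < det2 u v) (hu : ∀ x ∈ proj K, ∀ y ∈ proj K, det2 u (x - y) ≤ wu)
    (hv : ∀ x ∈ proj K, ∀ y ∈ proj K, det2 v (x - y) ≤ wv) (hM : ∀ y, len K y ≤ M)
    (hV : M * (wu * wv) ≤ 4 * (volume K).toReal * det2 u v) :
    ∃ (u' e : P2) (M₀ P : ℝ) (x₁ y₁ : P2), det2 u' e = 1 ∧
      (∀ x ∈ proj K, ∀ l : ℝ, 1 < l → x + l • u' ∉ proj K) ∧
      (∃ x ∈ proj K, x + (1 : ℝ) • u' ∈ proj K) ∧ 0 < M₀ ∧ (∀ y, len K y ≤ M₀) ∧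
      (∃ y, len K y = M₀) ∧ x₁ ∈ proj K ∧ y₁ ∈ proj K ∧ det2 u' (x₁ - y₁) = P ∧ 0 < P ∧
      (∀ x ∈ proj K, ∀ y ∈ proj K, det2 u' (x - y) ≤ P) ∧
      M₀ * P ≤ 4 * (volume K).toReal := by
  obtain ⟨c₀, hc0, hmax⟩ := exists_max hK
  obtain ⟨l₀, hl0, ⟨x₀, hx₀, hx₀'⟩, hlmax⟩ := exists_chord (proj_compact hK) (proj_interior hK) huv
  set u' : P2 := l₀ • u with hu'
  set e : P2 := (1 / (l₀ * det2 u v)) • v with he
  have hue : det2 u' e = 1 := by
    have : det2 u' e = l₀ * (1 / (l₀ * det2 u v)) * det2 u v := by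
      simp only [hu', he, det2, Pi.smul_apply, smul_eq_mul]; ring
    rw [this]
    field_simp
  obtain ⟨x₁, hx₁, y₁, hy₁, hpos, hP⟩ := exists_height (proj_compact hK) (proj_interior hK) hue
  refine ⟨u', e, len K c₀, det2 u' (x₁ - y₁), x₁, y₁, hue, ?_, ⟨x₀, hx₀, ?_⟩, hc0, hmax,
    ⟨c₀, rfl⟩, hx₁, hy₁, rfl, hpos, hP, ?_⟩
  · intro x hx l hl hxl
    rw [hu', smul_smul] at hxl
    have := hlmax x hx _ hxl
    nlinarith
  · rwa [one_smul]
  · have h1 : l₀ * det2 u v ≤ wv := by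
      have := hv _ hx₀ _ hx₀'
      have e1 : det2 v (x₀ - (x₀ + l₀ • u)) = l₀ * det2 u v := by
        simp only [det2, Pi.add_apply, Pi.sub_apply, Pi.smul_apply, smul_eq_mul]; ring
      rwa [e1] at this
    have h2 : det2 u' (x₁ - y₁) = l₀ * det2 u (x₁ - y₁) := by
      simp only [hu', det2, Pi.sub_apply, Pi.smul_apply, smul_eq_mul]; ring
    have h3 := hu _ hx₁ _ hy₁
    have h4 : 0 < det2 u (x₁ - y₁) := by
      rw [h2] at hpos
      exact pos_of_mul_pos_right hpos hl0.le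
    have h5 := hM c₀
    have hM0 : 0 < M := hc0.trans_le h5
    have hwu : 0 < wu := h4.trans_le h3
    rw [h2]
    have h6 : len K c₀ * (l₀ * det2 u (x₁ - y₁)) * det2 u v ≤
        4 * (volume K).toReal * det2 u v := by
      calc len K c₀ * (l₀ * det2 u (x₁ - y₁)) * det2 u v
          = len K c₀ * (det2 u (x₁ - y₁) * (l₀ * det2 u v)) := by ring
        _ ≤ M * (wu * wv) := by gcongr
        _ ≤ _ := hV
    exact le_of_mul_le_mul_right h6 huv

end Pool.Agent.Helper20.R
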