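import Pool.Agent.Helper20.R.Defs
import Pool.Agent.Helper59.Pack.Section

/-!
# Packings in separated rows: the packing
-/

set_option autoImplicit false
namespace Pool.Agent.Helper20.R
open MeasureTheory
open Pool.Agent.Helper59.Pack Pool.Agent.Helper69.MD Pool.Agent.Helper7.LS
open scoped ENNReal

theorem det2_ch {u e : P2} (hue : det2 u e = 1) (X Y : ℝ) : det2 u (ch u e X Y) = Y := by
  have : det2 u (ch u e X Y) = Y * det2 u e := by
    simp only [ch, det2, Pi.add_apply, Pi.smul_apply, smul_eq_mul]; ring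
  rw [this, hue, mul_one]

theorem det2_ch' {u e : P2} (hue : det2 u e = 1) (X Y : ℝ) : det2 (ch u e X Y) e = X := by
  have : det2 (ch u e X Y) e = X * det2 u e := by
    simp only [ch, det2, Pi.add_apply, Pi.smul_apply, smul_eq_mul]; ring
  rw [this, hue, mul_one]

theorem ch_det2 {u e : P2} (hue : det2 u e = 1) (x : P2) : ch u e (det2 x e) (det2 u x) = x := by
  apply P2_ext
  · have : ch u e (det2 x e) (det2 u x) 0 = det2 u e * x 0 := by
      simp only [ch, det2, Pi.add_apply, Pi.smul_apply, smul_eq_mul]; ring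
    rw [this, hue, one_mul]
  · have : ch u e (det2 x e) (det2 u x) 1 = det2 u e * x 1 := by
      simp only [ch, det2, Pi.add_apply, Pi.smul_apply, smul_eq_mul]; ring
    rw [this, hue, one_mul]

theorem ch_add (u e : P2) (X l Y : ℝ) : ch u e (X + l) Y = ch u e X Y + l • u := by
  unfold ch; module

theorem ch_comb (u e : P2) (a b X X' Y Y' : ℝ) :
    a • ch u e X Y + b • ch u e X' Y' = ch u e (a * X + b * X') (a * Y + b * Y') := by
  unfold ch; module

theorem continuous_det2_left (e : P2) : Continuous fun x : P2 => det2 x e := by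
  unfold det2; fun_prop

theorem continuous_det2_right (u : P2) : Continuous fun x : P2 => det2 u x := by
  unfold det2; fun_prop

theorem continuous_ch (u e : P2) : Continuous fun p : ℝ × ℝ => ch u e p.1 p.2 := by
  unfold ch; fun_prop

/-! ## Superlevel sets -/

theorem lev_zr (K : Set E3) : lev K 0 = proj K := by
  ext y
  exact ⟨fun h => h.1, fun h => ⟨h, len_nonneg K y⟩⟩

theorem lev_cpt {K : Set E3} (hK : IsConvexBody K) (t : ℝ) : IsCompact (lev K t) := by
  by_cases ht : 0 < t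
  · have e : lev K t = {y | t ≤ len K y} := by
      ext y
      refine ⟨fun h => h.2, fun h => ⟨?_, h⟩⟩
      by_contra hy
      have h' : t ≤ len K y := h
      rw [len_off hy] at h'
      linarith
    rw [e]
    exact superlevel_compact hK ht
  · have e : lev K t = proj K := by
      ext y
      exact ⟨fun h => h.1, fun h => ⟨h, (not_lt.1 ht).trans (len_nonneg K y)⟩⟩
    rw [e]
    exact proj_compact hK

theorem lev_cvx {K : Set E3} (hK : IsConvexBody K) {t t' a b : ℝ} {y y' : P2} (hy : y ∈ lev K t)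
    (hy' : y' ∈ lev K t') (ha : 0 ≤ a) (hb : 0 ≤ b) (hab : a + b = 1) :
    a • y + b • y' ∈ lev K (a * t + b * t') := by
  refine ⟨proj_convex hK hy.1 hy'.1 ha hb hab, ?_⟩
  have h := (len_concave hK).2 hy.1 hy'.1 ha hb hab
  simp only [smul_eq_mul] at h
  have h1 := mul_le_mul_of_nonneg_left hy.2 ha
  have h2 := mul_le_mul_of_nonneg_left hy'.2 hb
  linarith

theorem S_mx {K : Set E3} (hK : IsConvexBody K) {u e : P2} {t t' l l' a b Y Y' : ℝ}
    (hY : Y ∈ S K u e t l) (hY' : Y' ∈ S K u e t' l') (ha : 0 ≤ a) (hb : 0 ≤ b)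
    (hab : a + b = 1) : a * Y + b * Y' ∈ S K u e (a * t + b * t') (a * l + b * l') := by
  obtain ⟨X, h1, h2⟩ := hY
  obtain ⟨X', h1', h2'⟩ := hY'
  refine ⟨a * X + b * X', ?_, ?_⟩
  · have := lev_cvx hK h1 h1' ha hb hab
    rwa [ch_comb] at this
  · have := lev_cvx hK h2 h2' ha hb hab
    rw [ch_comb] at this
    rwa [show a * X + b * X' + (a * l + b * l') = a * (X + l) + b * (X' + l') by ring]

theorem S_cvx {K : Set E3} (hK : IsConvexBody K) {u e : P2} (t l : ℝ) :
    Convex ℝ (S K u e t l) := by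
  intro Y hY Y' hY' a b ha hb hab
  have := S_mx hK hY hY' ha hb hab
  rw [← add_mul, ← add_mul, hab, one_mul, one_mul] at this
  exact this

theorem S_eq_image {K : Set E3} {u e : P2} (hue : det2 u e = 1) (t l : ℝ) :
    S K u e t l = (fun x => det2 u x) '' (lev K t ∩ (fun x => x + l • u) ⁻¹' lev K t) := by
  ext Y
  constructor
  · rintro ⟨X, h1, h2⟩
    refine ⟨ch u e X Y, ⟨h1, ?_⟩, det2_ch hue X Y⟩
    change ch u e X Y + l • u ∈ lev K t
    rwa [← ch_add]
  · rintro ⟨x, ⟨h1, h2⟩, rfl⟩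
    refine ⟨det2 x e, ?_, ?_⟩
    · rwa [ch_det2 hue]
    · rw [ch_add, ch_det2 hue]
      exact h2

theorem S_cpt {K : Set E3} (hK : IsConvexBody K) {u e : P2} (hue : det2 u e = 1) (t l : ℝ) :
    IsCompact (S K u e t l) := by
  rw [S_eq_image hue]
  refine IsCompact.image ?_ (continuous_det2_right u)
  exact (lev_cpt hK t).inter_right ((lev_cpt hK t).isClosed.preimage (by fun_prop))

theorem S_ant {K : Set E3} (hK : IsConvexBody K) {u e : P2} {t t' l l' : ℝ} (ht : t ≤ t')
    (hl : 0 ≤ l) (hll : l ≤ l') : S K u e t' l' ⊆ S K u e t l := by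
  rintro Y ⟨X, h1, h2⟩
  have mono : ∀ y, y ∈ lev K t' → y ∈ lev K t := fun y hy => ⟨hy.1, ht.trans hy.2⟩
  refine ⟨X, mono _ h1, ?_⟩
  rcases hl.trans hll |>.lt_or_eq with h | h
  · have hc := lev_cvx hK (mono _ h1) (mono _ h2) (a := 1 - l / l') (b := l / l')
      (sub_nonneg.2 ((div_le_one h).2 hll)) (by positivity) (by ring)
    rw [ch_comb] at hc
    have e1 : (1 - l / l') * X + l / l' * (X + l') = X + l := by field_simp; ring
    have e2 : (1 - l / l') * Y + l / l' * Y = Y := by ring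
    have e3 : (1 - l / l') * t + l / l' * t = t := by ring
    rwa [e1, e2, e3] at hc
  · have : l = 0 := le_antisymm (h ▸ hll) hl
    rw [this, add_zero]
    exact mono _ h1

/-- Compact convex subsets of the line. -/
theorem icc_of {s : Set ℝ} (hc : IsCompact s) (hv : Convex ℝ s) (hne : s.Nonempty) :
    ∃ a b, a ≤ b ∧ s = Set.Icc a b := by
  refine ⟨sInf s, sSup s, ?_, ?_⟩
  · obtain ⟨t, ht⟩ := hne
    exact (csInf_le hc.bddBelow ht).trans (le_csSup hc.bddAbove ht)
  · apply Set.Subset.antisymm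
    · intro t ht
      exact ⟨csInf_le hc.bddBelow ht, le_csSup hc.bddAbove ht⟩
    · exact hv.ordConnected.out (hc.sInf_mem hne) (hc.sSup_mem hne)

/-! ## One row -/

/-- Integers at pairwise distance less than `2`. -/
theorem two_ints {P : ℤ → Prop} (h : ∀ m n, P m → P n → |m - n| < 2) :
    ∃ k, ∀ m, P m → m = k ∨ m = k + 1 := by
  by_cases hex : ∃ m, P m
  · obtain ⟨m, hm⟩ := hex
    by_cases h1 : P (m - 1)
    · refine ⟨m - 1, fun n hn => ?_⟩
      have a1 := abs_lt.1 (h n m hn hm)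
      have a2 := abs_lt.1 (h n (m - 1) hn h1)
      omega
    · refine ⟨m, fun n hn => ?_⟩
      have a1 := abs_lt.1 (h n m hn hm)
      by_contra hcon
      push Not at hcon
      have : n = m - 1 := by omega
      exact h1 (this ▸ hn)
  · exact ⟨0, fun m hm => absurd ⟨m, hm⟩ hex⟩

/-- The points `x₀ + m c / 2` avoid a compact interval without chords of length `1/2`. -/
theorem avoid {s : Set ℝ} (hc : IsCompact s) (hv : Convex ℝ s) {c : ℝ} (hc1 : 1 < c)
    (h : ∀ x ∈ s, x + 1 / 2 ∉ s) : ∃ x₀, ∀ m : ℤ, x₀ + m * c / 2 ∉ s := by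
  by_cases hne : s.Nonempty
  · obtain ⟨a, b, hab, rfl⟩ := icc_of hc hv hne
    have hlt : b < a + 1 / 2 := by
      by_contra hcon
      push Not at hcon
      exact h a ⟨le_rfl, hab⟩ ⟨by linarith, hcon⟩
    refine ⟨(b + a + c / 2) / 2, fun m hm => ?_⟩
    rcases lt_or_ge m 0 with h0 | h0
    · have h1 : (m : ℝ) ≤ -1 := by
        have : m ≤ -1 := by omega
        exact_mod_cast this
      have h2 := hm.1
      nlinarith
    · have h1 : (0 : ℝ) ≤ m := by exact_mod_cast h0
      have h2 := hm.2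
      nlinarith
  · refine ⟨0, fun m hm => hne ⟨_, hm⟩⟩

section Row
variable {K : Set E3} {u e : P2} {c s Y : ℝ}

/-- The row with the phase `x₀` at the height `Y`: all sections are at most `s`, at most the points
`k`, `k + 1` lie in the projection, and these two sections have sum at most `R`. -/
def Row (K : Set E3) (u e : P2) (c s Y x₀ : ℝ) (k : ℤ) (R : ℝ) : Prop :=
  (∀ m : ℤ, len K (ch u e (x₀ + m * c / 2) Y) ≤ s) ∧
  (∀ m : ℤ, m ≠ k → m ≠ k + 1 → len K (ch u e (x₀ + m * c / 2) Y) = 0) ∧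
  len K (ch u e (x₀ + k * c / 2) Y) + len K (ch u e (x₀ + (k + 1 : ℤ) * c / 2) Y) ≤ R

theorem row_two (hch : ∀ x ∈ proj K, ∀ l : ℝ, 1 < l → x + l • u ∉ proj K) (hc1 : 1 < c)
    (Y x₀ : ℝ) : ∃ k : ℤ, ∀ m : ℤ, m ≠ k → m ≠ k + 1 → len K (ch u e (x₀ + m * c / 2) Y) = 0 := by
  obtain ⟨k, hk⟩ := two_ints (P := fun m : ℤ => ch u e (x₀ + m * c / 2) Y ∈ proj K) (by
    intro m n hm hn
    by_contra hcon
    push Not at hcon
    have key : ∀ m n : ℤ, ch u e (x₀ + m * c / 2) Y ∈ proj K →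
        ch u e (x₀ + n * c / 2) Y ∈ proj K → 2 ≤ n - m → False := by
      intro m n hm hn h2
      have h3 : (2 : ℝ) ≤ n - m := by exact_mod_cast h2
      refine hch _ hm ((n - m) * c / 2) (by nlinarith) ?_
      rw [← ch_add]
      rwa [show x₀ + m * c / 2 + (n - m) * c / 2 = x₀ + n * c / 2 by ring]
    rcases le_abs.1 hcon with h | h
    · exact key n m hn hm h
    · exact key m n hm hn (by linarith))
  refine ⟨k, fun m h1 h2 => len_off fun h => ?_⟩
  rcases hk m h with h' | h'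
  · exact h1 h'
  · exact h2 h'

theorem row_cpt (hK : IsConvexBody K) (hue : det2 u e = 1) (t Y : ℝ) :
    IsCompact {X | ch u e X Y ∈ lev K t} := by
  have e1 : {X | ch u e X Y ∈ lev K t} =
      (fun x => det2 x e) '' (lev K t ∩ (fun x => det2 u x) ⁻¹' {Y}) := by
    ext X
    constructor
    · intro h
      exact ⟨ch u e X Y, ⟨h, det2_ch hue X Y⟩, det2_ch' hue X Y⟩
    · rintro ⟨x, ⟨h1, h2⟩, rfl⟩
      have h3 : det2 u x = Y := h2
      change ch u e (det2 x e) Y ∈ lev K t
      rwa [← h3, ch_det2 hue]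
  rw [e1]
  refine IsCompact.image ?_ (continuous_det2_left e)
  exact (lev_cpt hK t).inter_right (isClosed_singleton.preimage (continuous_det2_right u))

theorem row_cvx (hK : IsConvexBody K) (t Y : ℝ) : Convex ℝ {X | ch u e X Y ∈ lev K t} := by
  intro X hX X' hX' a b ha hb hab
  have h := lev_cvx hK hX hX' ha hb hab
  rw [ch_comb, ← add_mul, ← add_mul, hab, one_mul, one_mul] at h
  exact h

theorem len_le_of (hs : 0 ≤ s) {y : P2} (h : y ∉ lev K s) : len K y ≤ s := by
  by_contra hcon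
  push Not at hcon
  refine h ⟨?_, hcon.le⟩
  by_contra hy
  rw [len_off hy] at hcon
  linarith

/-- A row avoiding the sections longer than `r`. -/
theorem row_avoid (hK : IsConvexBody K) (hue : det2 u e = 1)
    (hch : ∀ x ∈ proj K, ∀ l : ℝ, 1 < l → x + l • u ∉ proj K) (hc1 : 1 < c) {r : ℝ} (hr : 0 ≤ r)
    (hrs : r ≤ s) (hY : Y ∉ S K u e r (1 / 2)) : ∃ x₀ k, Row K u e c s Y x₀ k (2 * r) := by
  obtain ⟨x₀, hx₀⟩ := avoid (row_cpt hK hue r Y) (row_cvx hK r Y) hc1
    (fun X h1 h2 => hY ⟨X, h1, h2⟩)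
  obtain ⟨k, hk⟩ := row_two (K := K) (u := u) (e := e) hch hc1 Y x₀
  have hle : ∀ m : ℤ, len K (ch u e (x₀ + m * c / 2) Y) ≤ r := fun m => len_le_of hr (hx₀ m)
  refine ⟨x₀, k, fun m => (hle m).trans hrs, hk, ?_⟩
  have h1 := hle k
  have h2 := hle (k + 1)
  linarith

/-- A row with at most one point in the projection. -/
theorem row_one (hK : IsConvexBody K) (hue : det2 u e = 1)
    (hch : ∀ x ∈ proj K, ∀ l : ℝ, 1 < l → x + l • u ∉ proj K) (hc1 : 1 < c) (hs : 0 ≤ s)
    (hY : Y ∉ S K u e s 0) : ∃ x₀ k, Row K u e c s Y x₀ k s := by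
  have hle : ∀ X, len K (ch u e X Y) ≤ s := by
    intro X
    refine len_le_of hs fun h => hY ⟨X, h, ?_⟩
    rwa [add_zero]
  have hz : lev K 0 = proj K := lev_zr K
  by_cases hne : {X | ch u e X Y ∈ lev K 0}.Nonempty
  · obtain ⟨a, b, hab, hE⟩ := icc_of (row_cpt hK hue 0 Y) (row_cvx hK 0 Y) hne
    have ha : a ∈ {X | ch u e X Y ∈ lev K 0} := by rw [hE]; exact ⟨le_rfl, hab⟩
    have hb : b ∈ {X | ch u e X Y ∈ lev K 0} := by rw [hE]; exact ⟨hab, le_rfl⟩
    have h1 : b - a ≤ 1 := by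
      by_contra hcon
      push Not at hcon
      have ha' : ch u e a Y ∈ proj K := ha.1
      have hb' : ch u e b Y ∈ proj K := hb.1
      refine hch _ ha' (b - a) hcon ?_
      rw [← ch_add]
      rwa [show a + (b - a) = b by ring]
    have hoff : ∀ m : ℤ, m ≠ 0 → len K (ch u e ((a + b) / 2 + m * c / 2) Y) = 0 := by
      intro m hm
      refine len_off fun h => ?_
      have h2 : (a + b) / 2 + m * c / 2 ∈ {X | ch u e X Y ∈ lev K 0} := by
        change ch u e _ Y ∈ lev K 0
        rw [hz]; exact h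
      rw [hE] at h2
      rcases lt_or_gt_of_ne hm with h3 | h3
      · have h4 : (m : ℝ) ≤ -1 := by
          have : m ≤ -1 := by omega
          exact_mod_cast this
        have := h2.1
        nlinarith
      · have h4 : (1 : ℝ) ≤ m := by
          have : 1 ≤ m := by omega
          exact_mod_cast this
        have := h2.2
        nlinarith
    refine ⟨(a + b) / 2, 0, fun m => hle _, fun m h2 _ => hoff m h2, ?_⟩
    rw [hoff (0 + 1) (by norm_num), add_zero]
    exact hle _
  · have hoff : ∀ X, len K (ch u e X Y) = 0 := by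
      intro X
      refine len_off fun h => hne ⟨X, ?_⟩
      change ch u e X Y ∈ lev K 0
      rw [hz]; exact h
    refine ⟨0, 0, fun m => hle _, fun m _ _ => hoff _, ?_⟩
    rw [hoff, hoff, add_zero]
    exact hs

end Row

/-! ## The choice of the rows -/

theorem vol_icc_or {s : Set ℝ} (hc : IsCompact s) (hv : Convex ℝ s) {h' : ℝ} (hh : 0 < h')
    {B : Set ℝ} (hB : B ⊆ s) (hvol : (volume B).toReal + (volume s).toReal < 2 * h') :
    ∃ Y₀, Y₀ ∉ B ∧ ∀ n : ℤ, n ≠ 0 → Y₀ + n * h' ∉ s := by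
  by_cases hne : s.Nonempty
  · obtain ⟨a, b, hab, rfl⟩ := icc_of hc hv hne
    rw [Real.volume_Icc, ENNReal.toReal_ofReal (by linarith)] at hvol
    have hBfin : volume B ≠ ⊤ := ne_top_of_le_ne_top (by rw [Real.volume_Icc]; simp)
      (measure_mono hB)
    have hlt : volume B < volume (Set.Ioo (b - h') (a + h')) := by
      rw [Real.volume_Ioo, ← ENNReal.ofReal_toReal hBfin,
        ENNReal.ofReal_lt_ofReal_iff_of_nonneg ENNReal.toReal_nonneg]
      linarith
    obtain ⟨Y₀, hY, hYB⟩ : ∃ Y₀ ∈ Set.Ioo (b - h') (a + h'), Y₀ ∉ B := by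
      by_contra hcon
      push Not at hcon
      exact absurd (measure_mono hcon) (not_le.2 hlt)
    refine ⟨Y₀, hYB, fun n hn hmem => ?_⟩
    rcases lt_or_gt_of_ne hn with h3 | h3
    · have h4 : (n : ℝ) ≤ -1 := by
        have : n ≤ -1 := by omega
        exact_mod_cast this
      have h5 := hmem.1
      have h6 := hY.2
      nlinarith
    · have h4 : (1 : ℝ) ≤ n := by
        have : 1 ≤ n := by omega
        exact_mod_cast this
      have h5 := hmem.2
      have h6 := hY.1
      nlinarith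
  · exact ⟨0, fun h => hne ⟨_, hB h⟩, fun n _ h => hne ⟨_, h⟩⟩

/-- The heights of the rows: only the rows `0` and `1` meet the projection, they do not meet `B`,
and one of them does not meet `A`. -/
theorem sel {K : Set E3} {u e : P2} {A B : Set ℝ} {P h' : ℝ}
    (hA : IsCompact A) (hAv : Convex ℝ A) (hBA : B ⊆ A) (hh : 0 < h')
    (hvol : (volume B).toReal + (volume A).toReal < 2 * h')
    (hP : ∀ x ∈ proj K, ∀ y ∈ proj K, det2 u (x - y) ≤ P) (hPh : P < 2 * h')
    (hue : det2 u e = 1) :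
    ∃ Y₀, (∀ n : ℤ, n ≠ 0 → n ≠ 1 → ∀ X, ch u e X (Y₀ + n * h') ∉ proj K) ∧ Y₀ ∉ B ∧
      Y₀ + h' ∉ B ∧ (Y₀ ∉ A ∨ Y₀ + h' ∉ A) := by
  obtain ⟨Z, hZB, hZA⟩ := vol_icc_or hA hAv hh hBA hvol
  obtain ⟨k, hk⟩ := two_ints (P := fun n : ℤ => ∃ X, ch u e X (Z + n * h') ∈ proj K) (by
    intro m n ⟨X, hX⟩ ⟨X', hX'⟩
    by_contra hcon
    push Not at hcon
    have key : ∀ m n : ℤ, ∀ X X', ch u e X (Z + m * h') ∈ proj K →
        ch u e X' (Z + n * h') ∈ proj K → 2 ≤ n - m → False := by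
      intro m n X X' hm hn h2
      have h3 : (2 : ℝ) ≤ n - m := by exact_mod_cast h2
      have h4 := hP _ hn _ hm
      have h5 : det2 u (ch u e X' (Z + n * h') - ch u e X (Z + m * h')) = (n - m) * h' := by
        have e1 := det2_ch hue X' (Z + n * h')
        have e2 := det2_ch hue X (Z + m * h')
        have e3 : det2 u (ch u e X' (Z + n * h') - ch u e X (Z + m * h')) =
            det2 u (ch u e X' (Z + n * h')) - det2 u (ch u e X (Z + m * h')) := by
          simp only [det2, Pi.sub_apply]; ring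
        rw [e3, e1, e2]; ring
      rw [h5] at h4
      nlinarith
    rcases le_abs.1 hcon with h | h
    · exact key n m X' X hX' hX h
    · exact key m n X X' hX hX' (by linarith))
  have hB' : ∀ n : ℤ, Z + n * h' ∉ B := by
    intro n
    by_cases hn : n = 0
    · rw [hn]; simpa using hZB
    · exact fun h => hZA n hn (hBA h)
  refine ⟨Z + k * h', fun n h0 h1 X hX => ?_, hB' k, ?_, ?_⟩
  · have h2 : ch u e X (Z + ((n + k : ℤ) : ℝ) * h') ∈ proj K := by
      push_cast
      rwa [show Z + ((n : ℝ) + k) * h' = Z + k * h' + n * h' by ring]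
    rcases hk (n + k) ⟨X, h2⟩ with h3 | h3
    · exact h0 (by omega)
    · exact h1 (by omega)
  · have := hB' (k + 1)
    push_cast at this
    rwa [show Z + ((k : ℝ) + 1) * h' = Z + k * h' + h' by ring] at this
  · by_cases hk0 : k = 0
    · right
      have := hZA (k + 1) (by omega)
      push_cast at this
      rwa [show Z + ((k : ℝ) + 1) * h' = Z + k * h' + h' by ring] at this
    · left
      exact hZA k hk0

/-- The sum over four different points of two rows. -/
theorem four_sum {f : ℤ → ℤ → ℝ} (hf : ∀ m n, 0 ≤ f m n) {a b : ℤ}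
    (h0 : ∀ m n, n ≠ 0 → n ≠ 1 → f m n = 0) (ha : ∀ m, m ≠ a → m ≠ a + 1 → f m 0 = 0)
    (hb : ∀ m, m ≠ b → m ≠ b + 1 → f m 1 = 0) {m n : Fin 4 → ℤ}
    (hinj : Function.Injective fun i => (m i, n i)) :
    ∑ i, f (m i) (n i) ≤ f a 0 + f (a + 1) 0 + (f b 1 + f (b + 1) 1) := by
  classical
  have e1 : ∑ i, f (m i) (n i) =
      ∑ x ∈ Finset.univ.image (fun i => (m i, n i)), f x.1 x.2 := by
    rw [Finset.sum_image (fun i _ j _ h => hinj h)]
  set G : Finset (ℤ × ℤ) := {(a, 0), (a + 1, 0), (b, 1), (b + 1, 1)} with hG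
  have e2 : ∑ x ∈ G, f x.1 x.2 = f a 0 + f (a + 1) 0 + (f b 1 + f (b + 1) 1) := by
    rw [hG, Finset.sum_insert, Finset.sum_insert, Finset.sum_insert, Finset.sum_singleton]
    · ring
    · simp
    · simp
    · simp
  rw [e1, ← e2]
  have e3 : ∑ x ∈ Finset.univ.image (fun i => (m i, n i)), f x.1 x.2 =
      ∑ x ∈ (Finset.univ.image (fun i => (m i, n i))).filter (· ∈ G), f x.1 x.2 := by
    rw [Finset.sum_filter]
    refine Finset.sum_congr rfl fun x _ => ?_
    split_ifs with hx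
    · rfl
    · obtain ⟨p, q⟩ := x
      simp only [hG, Finset.mem_insert, Finset.mem_singleton, Prod.mk.injEq, not_or, not_and] at hx
      by_cases hq0 : q = 0
      · subst hq0
        exact ha p (fun h => hx.1 h rfl) (fun h => hx.2.1 h rfl)
      · by_cases hq1 : q = 1
        · subst hq1
          exact hb p (fun h => hx.2.2.1 h rfl) (fun h => hx.2.2.2 h rfl)
        · exact h0 p q hq0 hq1
  rw [e3]
  exact Finset.sum_le_sum_of_subset_of_nonneg (fun x hx => (Finset.mem_filter.1 hx).2)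
    (fun x _ _ => hf _ _)

/-- The packing in separated rows. -/
theorem strategy {K : Set E3} (hK : IsConvexBody K) {u e : P2} (hue : det2 u e = 1)
    {s h' c P : ℝ} (hch : ∀ x ∈ proj K, ∀ l : ℝ, 1 < l → x + l • u ∉ proj K) (hc1 : 1 < c)
    (hs : 0 < s) (hlen : ∀ y, len K y ≤ 2 * s) (hh : 0 < h')
    (hP : ∀ x ∈ proj K, ∀ y ∈ proj K, det2 u (x - y) ≤ P) (hPh : P < 2 * h')
    (hom : om K u e s (1 / 2) + om K u e (s / 2) (1 / 2) < 2 * h' ∨
      om K u e s (1 / 2) + om K u e s 0 < 2 * h') :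
    volume K / ENNReal.ofReal (2 * s * h' * c) ≤ deltaLstar K := by
  -- the rows
  obtain ⟨Y₀, hoff, hB0, hB1, hrow⟩ : ∃ Y₀, (∀ n : ℤ, n ≠ 0 → n ≠ 1 → ∀ X,
      ch u e X (Y₀ + n * h') ∉ proj K) ∧ Y₀ ∉ S K u e s (1 / 2) ∧
      Y₀ + h' ∉ S K u e s (1 / 2) ∧
      ((∃ x₀ k, Row K u e c s Y₀ x₀ k s) ∨ (∃ x₀ k, Row K u e c s (Y₀ + h') x₀ k s)) := by
    rcases hom with h | h
    · obtain ⟨Y₀, h1, h2, h3, h4⟩ := sel (K := K) (u := u) (e := e)
        (S_cpt hK hue (s / 2) (1 / 2)) (S_cvx hK (s / 2) (1 / 2))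
        (S_ant hK (by linarith) (by norm_num) le_rfl : S K u e s (1 / 2) ⊆ _) hh h hP hPh hue
      refine ⟨Y₀, h1, h2, h3, ?_⟩
      rcases h4 with h4 | h4
      · left
        obtain ⟨x₀, k, hr⟩ := row_avoid (s := s) hK hue hch hc1 (by linarith) (by linarith) h4
        exact ⟨x₀, k, by rwa [show 2 * (s / 2) = s by ring] at hr⟩
      · right
        obtain ⟨x₀, k, hr⟩ := row_avoid (s := s) hK hue hch hc1 (by linarith) (by linarith) h4
        exact ⟨x₀, k, by rwa [show 2 * (s / 2) = s by ring] at hr⟩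
    · obtain ⟨Y₀, h1, h2, h3, h4⟩ := sel (K := K) (u := u) (e := e)
        (S_cpt hK hue s 0) (S_cvx hK s 0)
        (S_ant hK le_rfl le_rfl (by norm_num) : S K u e s (1 / 2) ⊆ _) hh h hP hPh hue
      refine ⟨Y₀, h1, h2, h3, ?_⟩
      rcases h4 with h4 | h4
      · exact Or.inl (row_one hK hue hch hc1 hs.le h4)
      · exact Or.inr (row_one hK hue hch hc1 hs.le h4)
  -- the phases
  obtain ⟨x₀, a, x₁, b, R₀, R₁, hr0, hr1, hR⟩ : ∃ x₀ a x₁ b R₀ R₁, Row K u e c s Y₀ x₀ a R₀ ∧
      Row K u e c s (Y₀ + h') x₁ b R₁ ∧ R₀ + R₁ ≤ 3 * s := by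
    have b0 := row_avoid (s := s) hK hue hch hc1 hs.le le_rfl hB0
    have b1 := row_avoid (s := s) hK hue hch hc1 hs.le le_rfl hB1
    rcases hrow with ⟨x, k, hr⟩ | ⟨x, k, hr⟩
    · obtain ⟨x', k', hr'⟩ := b1
      exact ⟨x, k, x', k', s, 2 * s, hr, hr', by linarith⟩
    · obtain ⟨x', k', hr'⟩ := b0
      exact ⟨x', k', x, k, 2 * s, s, hr', hr, by linarith⟩
  -- the lattice
  set t₁ : P2 := c • u with ht₁
  set t₂ : P2 := ch u e (2 * (x₁ - x₀)) (2 * h') with ht₂
  have hdet : det2 t₁ t₂ = c * (2 * h') := by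
    have e1 : det2 t₁ t₂ = c * det2 u t₂ := by
      simp only [ht₁, det2, Pi.smul_apply, smul_eq_mul]; ring
    rw [e1, ht₂, det2_ch hue]
  have hD0 : 0 < c * (2 * h') := by positivity
  have hpack : PlanarPacking K t₁ t₂ := by
    intro m n hmn x hx y hy hxy
    have hx' : pr x ∈ proj K := ⟨x, interior_subset hx, rfl⟩
    have hy' : pr y ∈ proj K := ⟨y, interior_subset hy, rfl⟩
    by_cases hn : n = 0
    · rw [hn] at hxy hmn
      have hm : m ≠ 0 := by simpa using hmn
      simp only [Int.cast_zero, zero_smul, add_zero] at hxy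
      rcases lt_or_gt_of_ne hm with h3 | h3
      · have h4 : (1 : ℝ) ≤ -m := by
          have : 1 ≤ -m := by omega
          exact_mod_cast this
        refine hch _ hx' (-m * c) (by nlinarith) ?_
        have e1 : pr x + (-m * c) • u = pr y := by
          have : pr y = pr x - (m : ℝ) • t₁ := by rw [← hxy]; abel
          rw [this, ht₁]; module
        rwa [e1]
      · have h4 : (1 : ℝ) ≤ m := by
          have : 1 ≤ m := by omega
          exact_mod_cast this
        refine hch _ hy' (m * c) (by nlinarith) ?_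
        have e1 : pr y + ((m : ℝ) * c) • u = pr x := by
          have : pr x = pr y + (m : ℝ) • t₁ := by rw [← hxy]; abel
          rw [this, ht₁]; module
        rwa [e1]
    · have e1 : det2 u (pr x - pr y) = n * (2 * h') := by
        rw [hxy]
        have e2 : det2 u ((m : ℝ) • t₁ + (n : ℝ) • t₂) = n * det2 u t₂ := by
          simp only [ht₁, det2, Pi.add_apply, Pi.smul_apply, smul_eq_mul]; ring
        rw [e2, ht₂, det2_ch hue]
      have h1 := hP _ hx' _ hy'
      have h2 := hP _ hy' _ hx'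
      have e3 : det2 u (pr y - pr x) = -(n * (2 * h')) := by
        rw [← e1]
        simp only [det2, Pi.sub_apply]; ring
      rw [e1] at h1
      rw [e3] at h2
      rcases lt_or_gt_of_ne hn with h3 | h3
      · have h4 : (n : ℝ) ≤ -1 := by
          have : n ≤ -1 := by omega
          exact_mod_cast this
        nlinarith
      · have h4 : (1 : ℝ) ≤ n := by
          have : 1 ≤ n := by omega
          exact_mod_cast this
        nlinarith
  -- the centres
  have hpt : ∀ m n : ℤ, (1 / 2 : ℝ) • (ch u e (2 * x₀) (2 * Y₀) + (m : ℝ) • t₁ + (n : ℝ) • t₂) =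
      ch u e (x₀ + m * c / 2 + n * (x₁ - x₀)) (Y₀ + n * h') := by
    intro m n
    rw [ht₁, ht₂]
    unfold ch
    module
  set f : ℤ → ℤ → ℝ := fun m n => len K (ch u e (x₀ + m * c / 2 + n * (x₁ - x₀)) (Y₀ + n * h'))
    with hf
  have hf0 : ∀ m, f m 0 = len K (ch u e (x₀ + m * c / 2) Y₀) := by
    intro m
    simp only [hf, Int.cast_zero, zero_mul, add_zero]
  have hf1 : ∀ m, f m 1 = len K (ch u e (x₁ + m * c / 2) (Y₀ + h')) := by
    intro m
    simp only [hf, Int.cast_one, one_mul]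
    rw [show x₀ + m * c / 2 + (x₁ - x₀) = x₁ + m * c / 2 by ring]
  have hfo : ∀ m n, n ≠ 0 → n ≠ 1 → f m n = 0 := fun m n h0 h1 => len_off (hoff n h0 h1 _)
  have hfle : ∀ m n, f m n ≤ s := by
    intro m n
    by_cases h0 : n = 0
    · rw [h0, hf0]; exact hr0.1 m
    · by_cases h1 : n = 1
      · rw [h1, hf1]; exact hr1.1 m
      · rw [hfo m n h0 h1]; exact hs.le
  have hgood : ∃ w : P2, ∀ m n : Fin 4 → ℤ, Function.Injective (fun i => (m i, n i)) →
      (∀ i, 2 * len K ((1 / 2 : ℝ) • (w + (m i : ℝ) • t₁ + (n i : ℝ) • t₂)) ≤ 2 * s) ∧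
      2 * ∑ i, len K ((1 / 2 : ℝ) • (w + (m i : ℝ) • t₁ + (n i : ℝ) • t₂)) ≤ 3 * (2 * s) := by
    refine ⟨ch u e (2 * x₀) (2 * Y₀), fun m n hinj => ?_⟩
    simp only [hpt]
    refine ⟨fun i => ?_, ?_⟩
    · have := hfle (m i) (n i)
      simp only [hf] at this
      linarith
    · have h1 := four_sum (f := f) (fun _ _ => len_nonneg _ _) hfo (a := a) (b := b)
        (fun m h2 h3 => by rw [hf0]; exact hr0.2.1 m h2 h3)
        (fun m h2 h3 => by rw [hf1]; exact hr1.2.1 m h2 h3) hinj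
      have h2 := hr0.2.2
      have h3 := hr1.2.2
      rw [hf0, hf0, hf1, hf1] at h1
      simp only [hf] at h1
      linarith
  have key := deltaLstar_ge hK hdet hD0 (by positivity : 0 < 2 * s) hpack hlen hgood
  refine le_trans (le_of_eq ?_) key
  rw [show 2 * s * (c * (2 * h')) = 2 * (2 * s * h' * c) by ring,
    ENNReal.ofReal_mul (by norm_num : (0 : ℝ) ≤ 2)]
  have e2 : ENNReal.ofReal 2 = 2 := by simp
  rw [e2, ENNReal.mul_div_mul_left _ _ (by norm_num) (by norm_num)]

end Pool.Agent.Helper20.R
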